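import Pool.Agent.H65.CM.Flip
import Pool.Agent.H65.CM.Subf

/-!
# The Tate conjecture for abelian varieties over finitely generated fields with a place whose Frobenius
fields are Galois with reduced odd group algebra: short relations decide

Let `k₀` be a finitely generated field, `A` an abelian variety over `k₀` of any dimension and `γ` a
Frobenius element of the Galois group `Γ` of `k₀` at **one** place of good reduction, the residue field
having `q = p ^ a` elements. The characteristic polynomial of `γ` on `V = V_ℓ (A)` is the product of the
minimal polynomials of Weil numbers `π i` generating CM fields `F i`. We suppose:

* `OddReduced`: `F i` is Galois over `ℚ`, and the odd part of the rational group algebra of its Galois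
  group (the elements `x` with `c x = - x`, for the complex conjugation `c`) contains no `x ≠ 0` with
  `x ^ 2 = 0`. This is so if the Galois group has an abelian subgroup `B` such that all elements
  outside `B` have square `c` (`DicyclicType`): the abelian CM fields, and the nonabelian Galois CM
  fields whose group is quaternion, dicyclic or generalized dicyclic, with `c` the distinguished
  involution. The odd functions on the embeddings of `F i` are in general not irreducible, and `F i` may
  have any number of proper CM subfields.
* `RealIntersection`: different fields `F i` have no CM field in common.
* `NoShort`: there are no short relations: if `S` is a nonempty set of complex embeddings of `F i` which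
  contains at most one of each pair of conjugate embeddings, then no positive power of
  `∏_{φ ∈ S} φ(π i) ^ 2` is equal to the same power of `q ^ |S|`.

If all powers of `π i` generate `F i` (which follows from `NoShort`) then a short relation gives a Tate
class which is not in the ring generated by divisors on the square of the simple factor `A_i` of the
reduction (on `A_i` itself if `|S|` is even, for instance if `A_i` is ordinary). So `NoShort` says that
there are no such classes of this most simple kind; it is a finite condition on the reduction.

**Theorem.** (1) (`SplitsForProducts`, `ClassesSplit`) For all representations `M` of `Γ`, for instance the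
cohomology of another variety, such that the eigenvalues of `γ` on `M` are roots of a rational polynomial
all of whose complex roots are products of numbers unrelated to the `F i`, the classes in
`H^j(A ^ r) ⊗ M` which are fixed by an open subgroup of `Γ` are zero for odd `j`, and linear combinations
of products of `m` Tate classes of degree two on `A ^ r` and of Tate classes in `M(-m)` for `j = 2 m`, for
all `r`. As the Tate classes of degree two are divisor classes (Tate, Zarhin, Faltings), this is, for `M`
trivial, **the Tate conjecture for all powers of `A`, in all codimensions and for all `ℓ`**.

(2) The condition is sharp: with the other conditions, the only multiplicative relations between `q` and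
the conjugates of all the `π i` are the trivial ones (`MaximalAngleRank`) if and only if `NoShort` holds
for each single `i`. So if all powers of the `π i` generate the `F i` and some product of powers of the
simple factors of the reduction has Tate classes which are not generated by divisors, then already the
square of one of the simple factors has such a class.

(3) `DicyclicType` fields are `OddReduced`.

(4) Elements of Galois number fields which have no CM field in common with `K` are unrelated to `K`.

For simple CM abelian varieties with abelian CM fields the analogous theorem on Hodge classes is due to
Lenstra (see White, Sporadic cycles on CM abelian varieties); for other Galois groups it is false in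
general. The known results in this problem on the Tate classes on all powers suppose that the odd functions
on the embeddings are irreducible, or flips, or prime dimension, or special or generic slopes.

The proof. The relations between the conjugates of `π i` form a one-sided ideal of the odd part of the
rational group algebra. In an odd part without nilpotents one-sided ideals are two-sided and idempotents
are central, all subgroups without `c` are normal, and modulo a suitable such subgroup every nonzero
ideal meets the group algebra of a self-centralizing abelian normal subgroup; there one finds an element
with the coefficients `0`, `1`, `-1`, that is a short relation.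
-/

set_option autoImplicit false

namespace Pool.Agent.Results.MP_7b53ad_ag.ShortRelationsDecide

open NumberField Module IntermediateField Pool.Agent.Y137.MV Pool.Agent.Y1.CT
  Pool.Agent.Q306.TP Pool.Agent.H65.CM

/-- **The Tate classes on the powers of abelian varieties with a place whose Frobenius fields are Galois
with reduced odd group algebra.** -/
theorem result :
    (∀ (p : ℕ) [Fact p.Prime] (a : ℕ) (I : Type) [Fintype I] (F : I → Type)
      [∀ i, Field (F i)] [∀ i, NumberField (F i)] [∀ i, IsCMField (F i)] (π : ∀ i, F i),
      (∀ i, ℚ⟮π i⟯ = ⊤) → (∀ i, π i * IsCMField.complexConj (F i) (π i) = (p : F i) ^ a) →
      (∀ i, OddReduced (F i)) → (∀ i k, i ≠ k → RealIntersection (F i) (F k)) →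
      (∀ i, NoShort (p ^ a) (π i)) → SplitsForProducts (p := p) a F π) ∧
    (∀ (q : ℕ) (I : Type) [Fintype I] (F : I → Type) [∀ i, Field (F i)] [∀ i, NumberField (F i)]
      [∀ i, IsCMField (F i)] (π : ∀ i, F i), q ≠ 0 →
      (∀ i, π i * IsCMField.complexConj (F i) (π i) = (q : F i)) → (∀ i, OddReduced (F i)) →
      (∀ i k, i ≠ k → RealIntersection (F i) (F k)) →
      (MaximalAngleRank q π ↔ ∀ i, NoShort q (π i))) ∧
    (∀ (K : Type) [Field K] [NumberField K], DicyclicType K → OddReduced K) ∧
    (∀ (K E : Type) [Field K] [NumberField K] [IsGalois ℚ K] [Field E] [NumberField E]
      [IsGalois ℚ E], RealIntersection K E → ∀ (ψ : E →+* ℂ) (y : E), UnrelatedTo K (ψ y)) := by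
  refine ⟨?_, ?_, fun K _ _ h => OddReduced.of_dicyclic h, ?_⟩
  · intro p _ a I _ F _ _ _ π hgen hw hred hreal hshort
    have hw' : ∀ i, π i * IsCMField.complexConj (F i) (π i) = ((p ^ a : ℕ) : F i) := fun i => by
      rw [hw i]
      push_cast
      rfl
    exact split_of_products hgen hw ((angle_family_iff
      (pow_ne_zero a (Fact.out : p.Prime).ne_zero) hred hw' hreal).2 hshort)
  · intro q I _ F _ _ _ π hq hw hred hreal
    exact angle_family_iff hq hred hw hreal
  · intro K E _ _ _ _ _ _ h ψ y
    obtain ⟨τ, h1, h2⟩ := exists_flip h
    exact unrelated_of_flip τ h1 h2 ψ y

end Pool.Agent.Results.MP_7b53ad_ag.ShortRelationsDecide
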